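import Pool.Agent.Helper63.ST.Defs

/-!
MP_82cbb9_al, structure theorem, module ST-6a (helper66): the dual of a divisible p-group of
finite rank is finitely generated over the p-adic integers.
-/

set_option autoImplicit false

namespace Pool.Agent.ST

open Module

section st6a

variable (p : ℕ) [Fact p.Prime]

/-- the class of `1 / p` -/
noncomputable def st6aQ0 : QpZp p :=
  (LinearMap.range (Algebra.linearMap ℤ_[p] ℚ_[p])).mkQ ((p : ℚ_[p])⁻¹)

theorem st6a_mk_int (z : ℤ_[p]) :
    (LinearMap.range (Algebra.linearMap ℤ_[p] ℚ_[p])).mkQ (z : ℚ_[p]) = 0 := by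
  rw [Submodule.mkQ_apply, Submodule.Quotient.mk_eq_zero]
  exact ⟨z, rfl⟩

theorem st6a_p_ne_zero : (p : ℚ_[p]) ≠ 0 := by
  exact_mod_cast (Fact.out : p.Prime).ne_zero

theorem st6a_p_smul_Q0 : p • st6aQ0 p = 0 := by
  rw [st6aQ0, ← map_nsmul, nsmul_eq_mul, mul_inv_cancel₀ (st6a_p_ne_zero p)]
  exact st6a_mk_int p 1

/-- `ZMod p → ℚ_p / ℤ_p`, `1 ↦ 1 / p` -/
noncomputable def st6aJ : ZMod p →+ QpZp p :=
  ZMod.lift p ⟨zmultiplesHom _ (st6aQ0 p), by
    rw [zmultiplesHom_apply, natCast_zsmul]; exact st6a_p_smul_Q0 p⟩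

theorem st6aJ_natCast (n : ℕ) : st6aJ p (n : ZMod p) = n • st6aQ0 p := by
  have : ((n : ℤ) : ZMod p) = (n : ZMod p) := by simp
  rw [← this, st6aJ, ZMod.lift_coe]
  simp

theorem st6aJ_natCast_mul (n : ℕ) (x : ZMod p) :
    st6aJ p ((n : ZMod p) * x) = n • st6aJ p x := by
  rw [← nsmul_eq_mul, map_nsmul]

theorem st6aJ_surj {q : QpZp p} (hq : p • q = 0) : ∃ x : ZMod p, st6aJ p x = q := by
  obtain ⟨x, rfl⟩ := Submodule.mkQ_surjective _ q
  rw [← map_nsmul, Submodule.mkQ_apply, Submodule.Quotient.mk_eq_zero] at hq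
  obtain ⟨z, hz⟩ := hq
  have hz : (z : ℚ_[p]) = p * x := by
    rw [← nsmul_eq_mul]; exact hz
  obtain ⟨n, _, hn⟩ := PadicInt.exists_mem_range z
  rw [PadicInt.maximalIdeal_eq_span_p, Ideal.mem_span_singleton'] at hn
  obtain ⟨w, hw⟩ := hn
  refine ⟨(n : ZMod p), ?_⟩
  rw [st6aJ_natCast, st6aQ0, ← map_nsmul, ← sub_eq_zero, ← map_sub]
  have hx : x = (p : ℚ_[p])⁻¹ * z := by
    rw [hz, ← mul_assoc, inv_mul_cancel₀ (st6a_p_ne_zero p), one_mul]
  have hzz : (z : ℚ_[p]) = n + w * p := by
    have : z = n + w * p := by rw [hw]; ring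
    rw [this]; push_cast; ring
  have : n • (p : ℚ_[p])⁻¹ - x = ((-w : ℤ_[p]) : ℚ_[p]) := by
    rw [hx, hzz, nsmul_eq_mul]
    push_cast
    have := st6a_p_ne_zero p
    field_simp
    ring
  rw [this]
  exact st6a_mk_int p _

variable {B : Type} [AddCommGroup B]

/-- the elements of order `p` -/
def st6aT (B : Type) [AddCommGroup B] (p : ℕ) : AddSubgroup B where
  carrier := {b | p • b = 0}
  zero_mem' := smul_zero _
  add_mem' := by
    intro a b ha hb
    simp only [Set.mem_ofPred_eq] at ha hb ⊢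
    rw [smul_add, ha, hb, add_zero]
  neg_mem' := by
    intro a ha
    simp only [Set.mem_ofPred_eq] at ha ⊢
    rw [smul_neg, ha, neg_zero]

/-- `B[p]` is a vector space over `ZMod p` -/
@[reducible] noncomputable def st6aMod (B : Type) [AddCommGroup B] (p : ℕ) :
    Module (ZMod p) (st6aT B p) :=
  AddCommGroup.zmodModule (fun x => Subtype.ext x.2)

attribute [local instance] st6aMod

theorem st6aT_fg {r : ℕ} (hr : RankLE B r) :
    ∃ t : Finset B, t.card ≤ r ∧ AddSubgroup.closure (t : Set B) = st6aT B p := by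
  classical
  have hrank : Module.rank (ZMod p) (st6aT B p) ≤ r := by
    refine rank_le fun s hs => ?_
    obtain ⟨t, ht, htc⟩ := hr (s.image Subtype.val)
    have htT : ∀ b ∈ t, b ∈ st6aT B p := by
      intro b hb
      have h1 : b ∈ AddSubgroup.closure (t : Set B) := AddSubgroup.subset_closure hb
      rw [htc] at h1
      refine (AddSubgroup.closure_le _).2 ?_ h1
      intro c hc
      rw [Finset.mem_coe, Finset.mem_image] at hc
      obtain ⟨c, _, rfl⟩ := hc
      exact c.2
    let w : Finset (st6aT B p) := t.attach.image fun b => ⟨b.1, htT b.1 b.2⟩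
    have hw : w.card ≤ r := Finset.card_image_le.trans (by simpa using ht)
    have h2 := linearIndependent_le_span' (fun i : s => (i : st6aT B p)) hs (w : Set (st6aT B p))
      (by
        rintro x ⟨i, rfl⟩
        have h3 : (i : st6aT B p).1 ∈ AddSubgroup.closure (t : Set B) := by
          rw [htc]
          apply AddSubgroup.subset_closure
          rw [Finset.mem_coe, Finset.mem_image]
          exact ⟨i.1, i.2, rfl⟩
        have h4 : AddSubgroup.closure (t : Set B) ≤
            (Submodule.span (ZMod p) (w : Set (st6aT B p))).toAddSubgroup.map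
              (st6aT B p).subtype := by
          rw [AddSubgroup.closure_le]
          intro b hb
          refine ⟨⟨b, htT b hb⟩, ?_, rfl⟩
          apply Submodule.subset_span
          rw [Finset.mem_coe, Finset.mem_image]
          exact ⟨⟨b, hb⟩, Finset.mem_attach _ _, rfl⟩
        obtain ⟨y, hy, hy'⟩ := h4 h3
        have : y = i.1 := Subtype.ext hy'
        show (i : st6aT B p) ∈ _
        rw [← this]
        exact hy)
    rw [Cardinal.mk_fintype] at h2
    have h3 : Fintype.card s ≤ Fintype.card (w : Set (st6aT B p)) := by exact_mod_cast h2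
    simp only [Fintype.card_coe, Finset.coe_sort_coe] at h3
    exact h3.trans hw
  have hnoe : IsNoetherian (ZMod p) (st6aT B p) :=
    IsNoetherian.iff_rank_lt_aleph0.2 (hrank.trans_lt (Cardinal.natCast_lt_aleph0))
  obtain ⟨S, hS⟩ := hnoe.noetherian ⊤
  obtain ⟨t, ht, htc⟩ := hr (S.image Subtype.val)
  refine ⟨t, ht, ?_⟩
  rw [htc]
  apply le_antisymm
  · rw [AddSubgroup.closure_le]
    intro c hc
    rw [Finset.mem_coe, Finset.mem_image] at hc
    obtain ⟨c, _, rfl⟩ := hc
    exact c.2
  · intro b hb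
    have key : ∀ x : st6aT B p, x ∈ Submodule.span (ZMod p) (S : Set (st6aT B p)) →
        (x : B) ∈ AddSubgroup.closure ((S.image Subtype.val : Finset B) : Set B) := by
      intro x hx
      induction hx using Submodule.span_induction with
      | mem x hx =>
        apply AddSubgroup.subset_closure
        rw [Finset.mem_coe, Finset.mem_image]
        exact ⟨x, hx, rfl⟩
      | zero => exact AddSubgroup.zero_mem _
      | add x y _ _ hx hy => exact AddSubgroup.add_mem _ hx hy
      | smul a x _ hx =>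
        have : a • x = a.val • x := by
          conv_lhs => rw [← ZMod.natCast_zmod_val a]
          rw [Nat.cast_smul_eq_nsmul]
        rw [this]
        exact AddSubgroup.nsmul_mem _ hx _
    exact key ⟨b, hb⟩ (by rw [hS]; exact Submodule.mem_top)

/-- one step of the approximation -/
theorem st6a_step {r : ℕ} (hr : RankLE B r) (h2 : ∀ b : B, ∃ c, p • c = b) :
    ∃ u : Fin r → (B →+ QpZp p), ∀ f : B →+ QpZp p, ∃ (a : Fin r → ℕ) (g : B →+ QpZp p),
      f = ∑ i, a i • u i + p • g := by
  classical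
  obtain ⟨t, ht, htc⟩ := st6aT_fg p hr
  have htp : ∀ b ∈ t, p • b = 0 := by
    intro b hb
    have : b ∈ st6aT B p := by rw [← htc]; exact AddSubgroup.subset_closure hb
    exact this
  -- the space of value vectors
  let E : Submodule (ZMod p) (t → ZMod p) :=
    { carrier := {v | ∃ f : B →+ QpZp p, ∀ b : t, f b = st6aJ p (v b)}
      zero_mem' := ⟨0, fun b => by simp⟩
      add_mem' := by
        rintro v v' ⟨f, hf⟩ ⟨f', hf'⟩
        exact ⟨f + f', fun b => by rw [AddMonoidHom.add_apply, hf, hf', Pi.add_apply, map_add]⟩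
      smul_mem' := by
        rintro c v ⟨f, hf⟩
        refine ⟨c.val • f, fun b => ?_⟩
        rw [AddMonoidHom.nsmul_apply, hf, Pi.smul_apply, smul_eq_mul, ← st6aJ_natCast_mul,
          ZMod.natCast_zmod_val] }
  obtain ⟨P, hP⟩ := LinearMap.exists_leftInverse_of_injective E.subtype (Submodule.ker_subtype E)
  have he : ∀ b : t, ∃ f : B →+ QpZp p, ∀ b' : t,
      f b' = st6aJ p ((P (Pi.single b 1)).1 b') := fun b => (P (Pi.single b 1)).2
  choose u0 hu0 using he
  obtain ⟨emb⟩ : Nonempty (t ↪ Fin r) := by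
    apply Function.Embedding.nonempty_of_card_le
    simpa using ht
  refine ⟨Function.extend emb u0 0, fun f => ?_⟩
  have hv : ∀ b : t, ∃ x : ZMod p, st6aJ p x = f b := fun b => st6aJ_surj p (by
    rw [← map_nsmul, htp b.1 b.2, map_zero])
  choose v hv using hv
  have hvE : v ∈ E := ⟨f, fun b => (hv b).symm⟩
  have hsum : ∀ b' : t, v b' = ∑ b : t, v b * (P (Pi.single b 1)).1 b' := by
    intro b'
    have h3 : P v = ⟨v, hvE⟩ := by
      have := LinearMap.congr_fun hP ⟨v, hvE⟩
      exact this
    have h4 : P v = ∑ b : t, v b • P (Pi.single b 1) := by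
      conv_lhs => rw [LinearMap.pi_apply_eq_sum_univ P v]
      refine Finset.sum_congr rfl fun b _ => ?_
      congr 2
      funext j
      simp [Pi.single_apply, eq_comm]
    have h5 := congrArg (fun x : E => x.1 b') (h3.symm.trans h4)
    simpa using h5
  let a : Fin r → ℕ := Function.extend emb (fun b => (v b).val) 0
  have hval : ∀ b' : t, (∑ i, a i • (Function.extend emb u0 0 : Fin r → (B →+ QpZp p)) i) b'
      = f b' := by
    intro b'
    have h6 : ∑ b : t, (v b).val • u0 b
        = ∑ i, a i • (Function.extend emb u0 0 : Fin r → (B →+ QpZp p)) i := by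
      refine Fintype.sum_of_injective emb emb.injective _ _ ?_ ?_
      · intro i hi
        have : a i = 0 := Function.extend_apply' _ _ _ (fun ⟨x, hx⟩ => hi ⟨x, hx⟩)
        rw [this, zero_nsmul]
      · intro b
        have h7 : a (emb b) = (v b).val := emb.injective.extend_apply _ _ _
        rw [h7, emb.injective.extend_apply]
    rw [← h6, ← hv, AddMonoidHom.finsetSum_apply, hsum b', map_sum]
    refine Finset.sum_congr rfl fun b _ => ?_
    rw [AddMonoidHom.nsmul_apply, hu0, ← st6aJ_natCast_mul, ZMod.natCast_zmod_val]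
  set h := f - ∑ i, a i • (Function.extend emb u0 0 : Fin r → (B →+ QpZp p)) i with hh
  have hT : ∀ b : B, p • b = 0 → h b = 0 := by
    intro b hb
    have hb' : b ∈ AddSubgroup.closure (t : Set B) := by rw [htc]; exact hb
    have : AddSubgroup.closure (t : Set B) ≤ h.ker := by
      rw [AddSubgroup.closure_le]
      intro c hc
      show h c = 0
      rw [hh, AddMonoidHom.sub_apply, hval ⟨c, hc⟩, sub_self]
    exact this hb'
  choose d hd using h2
  let g : B →+ QpZp p :=
    { toFun := fun b => h (d b)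
      map_zero' := hT _ (hd 0)
      map_add' := by
        intro x y
        rw [← sub_eq_zero, ← map_add, ← map_sub]
        apply hT
        rw [smul_sub, smul_add, hd, hd, hd, sub_self] }
  refine ⟨a, g, ?_⟩
  have : p • g = h := by
    ext b
    rw [AddMonoidHom.nsmul_apply]
    show p • h (d b) = h b
    rw [← map_nsmul, hd]
  rw [this, hh]
  abel

/-- ST-6a: the dual `Hom(B, ℚ_p/ℤ_p)` of a divisible `p`-group of rank `≤ r` is generated by
`r` elements over `ℤ_p` -/
theorem dual_fg {B : Type} [AddCommGroup B] {r : ℕ} (hr : RankLE B r) (p : ℕ) [Fact p.Prime]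
    (h1 : ∀ b : B, ∃ k : ℕ, p ^ k • b = 0) (h2 : ∀ b : B, ∃ c, p • c = b) :
    ∃ u : Fin r → (B →+ QpZp p), Submodule.span ℤ_[p] (Set.range u) = ⊤ := by
  obtain ⟨u, hu⟩ := st6a_step p hr h2
  choose a g hag using hu
  refine ⟨u, ?_⟩
  rw [eq_top_iff]
  intro f _
  let F : ℕ → (B →+ QpZp p) := fun n => Nat.rec f (fun _ x => g x) n
  have hF : ∀ n, F n = ∑ i, a (F n) i • u i + p • F (n + 1) := fun n => hag (F n)
  let S : Fin r → ℕ → ℤ_[p] := fun i n => ∑ k ∈ Finset.range n, (p : ℤ_[p]) ^ k * (a (F k) i : ℤ_[p])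
  have hS : ∀ n, ∀ b : B, f b = ∑ i, S i n • u i b + (p ^ n) • F n b := by
    intro n b
    induction n with
    | zero => simp [S, F]
    | succ n ih =>
      have h3 : F n b = ∑ i, a (F n) i • u i b + p • F (n + 1) b := by
        have := congrArg (fun q : B →+ QpZp p => q b) (hF n)
        simpa using this
      rw [ih, h3]
      have h4 : ∀ i, S i (n + 1) • u i b = S i n • u i b + p ^ n • (a (F n) i • u i b) := by
        intro i
        have : S i (n + 1) = S i n + ((p ^ n * a (F n) i : ℕ) : ℤ_[p]) := by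
          simp only [S]
          rw [Finset.sum_range_succ]
          push_cast
          rfl
        rw [this, add_smul, Nat.cast_smul_eq_nsmul, mul_smul]
      simp only [h4]
      rw [Finset.sum_add_distrib, smul_add, Finset.smul_sum, pow_succ, mul_smul]
      abel
  have hlim : ∀ i, ∃ L : ℤ_[p], ∀ n, ∃ c : ℤ_[p], S i n - L = c * (p : ℤ_[p]) ^ n := by
    intro i
    have hmem : ∀ (n : ℕ) (x : ℤ_[p]), x ∈ ((IsLocalRing.maximalIdeal ℤ_[p]) ^ n •
        ⊤ : Submodule ℤ_[p] ℤ_[p]) ↔ ∃ c : ℤ_[p], c * (p : ℤ_[p]) ^ n = x := by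
      intro n x
      rw [PadicInt.maximalIdeal_eq_span_p, Ideal.span_singleton_pow, smul_eq_mul, Ideal.mul_top,
        Ideal.mem_span_singleton']
    obtain ⟨L, hL⟩ := IsPrecomplete.prec
      (inferInstance : IsPrecomplete (IsLocalRing.maximalIdeal ℤ_[p]) ℤ_[p]) (f := S i) (by
        intro m n hmn
        rw [SModEq.sub_mem, hmem]
        refine ⟨-∑ k ∈ Finset.Ico m n, (p : ℤ_[p]) ^ (k - m) * (a (F k) i : ℤ_[p]), ?_⟩
        simp only [S]
        rw [← Finset.sum_range_add_sum_Ico _ hmn]
        rw [neg_mul, Finset.sum_mul]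
        have : ∀ k ∈ Finset.Ico m n, (p : ℤ_[p]) ^ (k - m) * (a (F k) i : ℤ_[p]) * (p : ℤ_[p]) ^ m
            = (p : ℤ_[p]) ^ k * (a (F k) i : ℤ_[p]) := by
          intro k hk
          have hk' : k - m + m = k := Nat.sub_add_cancel (Finset.mem_Ico.1 hk).1
          have hk2 : (p : ℤ_[p]) ^ k = (p : ℤ_[p]) ^ (k - m) * (p : ℤ_[p]) ^ m := by
            rw [← pow_add, hk']
          rw [hk2]
          ring
        rw [Finset.sum_congr rfl this]
        ring)
    refine ⟨L, fun n => ?_⟩
    have := hL n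
    rw [SModEq.sub_mem, hmem] at this
    obtain ⟨c, hc⟩ := this
    exact ⟨c, hc.symm⟩
  choose L hL using hlim
  have hfL : f = ∑ i, L i • u i := by
    ext b
    obtain ⟨n, hn⟩ := h1 b
    have h5 : ∀ i, S i n • u i b = L i • u i b := by
      intro i
      obtain ⟨c, hc⟩ := hL i n
      have : S i n = L i + c * ((p ^ n : ℕ) : ℤ_[p]) := by
        push_cast
        rw [← hc]; ring
      rw [this, add_smul, mul_smul, Nat.cast_smul_eq_nsmul, ← map_nsmul, hn, map_zero, smul_zero,
        add_zero]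
    rw [hS n b, ← map_nsmul, hn, map_zero, add_zero, AddMonoidHom.finsetSum_apply]
    exact Finset.sum_congr rfl fun i _ => h5 i
  rw [hfL]
  exact Submodule.sum_mem _ fun i _ => Submodule.smul_mem _ _ (Submodule.subset_span ⟨i, rfl⟩)

end st6a

end Pool.Agent.ST
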